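import Pool.Agent.N334.CN.Asm
import Pool.Agent.N72.CN.AA
import Pool.Agent.N691.CN.BB
import Pool.Agent.N707.CN.VOL
import Pool.Agent.N91.CN.CI
import Pool.Agent.TH219.DL.Bridge

/-!
# Among the cones over planar convex bodies exactly the tetrahedra minimise `δ_L`

Every cone `K = conv (S ∪ {a})` over a planar convex body `S` has lattice packing density at least
`18/49`, with equality exactly if `K` is a tetrahedron.

Proof: let `v 0, v 1, v 2` be the vertices of a triangle of maximal area inscribed in `S`, use the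
coordinates with `a = 0`, `v i = e i`, and let `- r i` be the minimum of the coordinate `x i` on `S`.
The volume of `K` is at least `(1 + r 0 + r 1 + r 2) / 6`. Two explicit lattices, whose bases depend
polynomially on `r`, give packings of every cone with these data (translates are separated by one of
seven planes), and the smaller of their determinants is at most `(49/108)(1 + r 0 + r 1 + r 2)`,
with equality only if `r = 0`.
-/

namespace Pool.Agent.Results.MP_3d065d_co.ConesTetrahedra

open Pool.Agent.TH219.DL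

/-- `K` is a cone over a planar convex body: the convex hull of a compact convex subset `S` of a
plane and of a point `a` outside that plane, with nonempty interior -/
def IsCone (K : Set (Fin 3 → ℝ)) : Prop :=
  ∃ (a : Fin 3 → ℝ) (S : Set (Fin 3 → ℝ)) (f : (Fin 3 → ℝ) →ₗ[ℝ] ℝ) (c : ℝ),
    IsCompact S ∧ Convex ℝ S ∧ (∀ x ∈ S, f x = c) ∧ f a ≠ c ∧
    K = convexHull ℝ (insert a S) ∧ (interior K).Nonempty

/-- `K` is a tetrahedron -/
def IsTetrahedron (K : Set (Fin 3 → ℝ)) : Prop :=
  ∃ p : Fin 4 → (Fin 3 → ℝ), AffineIndependent ℝ p ∧ K = convexHull ℝ (Set.range p)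

theorem isCone_of_isTetrahedron {K : Set (Fin 3 → ℝ)} (hK : IsTetrahedron K) : IsCone K := by
  obtain ⟨p, hp, rfl⟩ := hK
  have hli : LinearIndependent ℝ (fun i : Fin 3 => p i.succ - p 0) := by
    have h1 := (affineIndependent_iff_linearIndependent_vsub ℝ p 0).1 hp
    exact h1.comp (fun i : Fin 3 => (⟨i.succ, Fin.succ_ne_zero i⟩ : {x : Fin 4 // x ≠ 0}))
      (fun i j hij => Fin.succ_injective _ (by simpa using hij))
  have hcard : Fintype.card (Fin 3) = Module.finrank ℝ (Fin 3 → ℝ) := by simp
  set B := basisOfLinearIndependentOfCardEqFinrank hli hcard with hB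
  have hBi : ∀ i, B i = p i.succ - p 0 := by intro i; simp [hB]
  obtain ⟨f, hfdef⟩ : ∃ f : (Fin 3 → ℝ) →ₗ[ℝ] ℝ, f = B.coord 0 + B.coord 1 + B.coord 2 := ⟨_, rfl⟩
  have hf : ∀ i : Fin 3, f (p i.succ - p 0) = 1 := by
    intro i
    rw [← hBi i]
    simp only [hfdef, LinearMap.add_apply, Module.Basis.coord_apply, Module.Basis.repr_self]
    fin_cases i <;> simp
  have hset : convexHull ℝ (Set.range p) =
      convexHull ℝ (insert (p 0) (convexHull ℝ (Set.range fun i : Fin 3 => p i.succ))) := by
    apply Set.Subset.antisymm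
    · apply convexHull_min _ (convex_convexHull ℝ _)
      rintro _ ⟨i, rfl⟩
      refine Fin.cases ?_ (fun j => ?_) i
      · exact subset_convexHull ℝ _ (Set.mem_insert _ _)
      · exact subset_convexHull ℝ _
          (Set.mem_insert_of_mem _ (subset_convexHull ℝ _ ⟨j, rfl⟩))
    · apply convexHull_min _ (convex_convexHull ℝ _)
      apply Set.insert_subset
      · exact subset_convexHull ℝ _ ⟨0, rfl⟩
      · apply convexHull_mono
        rintro _ ⟨i, rfl⟩
        exact ⟨i.succ, rfl⟩
  refine ⟨p 0, convexHull ℝ (Set.range fun i : Fin 3 => p i.succ), f, 1 + f (p 0),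
    (Set.finite_range _).isCompact_convexHull ℝ, convex_convexHull ℝ _, ?_, ?_, hset, ?_⟩
  · intro x hx
    have hconv : Convex ℝ {x | f x = 1 + f (p 0)} := by
      intro x hx y hy a b _ _ hab
      have hx' : f x = 1 + f (p 0) := hx
      have hy' : f y = 1 + f (p 0) := hy
      show f (a • x + b • y) = 1 + f (p 0)
      rw [map_add, map_smul, map_smul, hx', hy', smul_eq_mul, smul_eq_mul, ← add_mul, hab, one_mul]
    refine convexHull_min ?_ hconv hx
    rintro _ ⟨i, rfl⟩
    have h1 := hf i
    rw [map_sub] at h1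
    show f (p i.succ) = 1 + f (p 0)
    linarith
  · linarith
  · rw [interior_convexHull_nonempty_iff_affineSpan_eq_top,
      hp.affineSpan_eq_top_iff_card_eq_finrank_add_one]
    simp

theorem result : (∀ K : Set (Fin 3 → ℝ), IsTetrahedron K → IsCone K) ∧
    ∀ K : Set (Fin 3 → ℝ), IsCone K →
      18 / 49 ≤ dL K ∧ dL K ≤ dT K ∧ (dL K = 18 / 49 ↔ IsTetrahedron K) := by
  refine ⟨fun K hK => isCone_of_isTetrahedron hK, fun K hK => ?_⟩
  have h := Pool.Agent.N334.CN.cone_main Pool.Agent.N72.CN.t_AA Pool.Agent.N691.CN.t_BB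
    Pool.Agent.N91.CN.t_DET Pool.Agent.N91.CN.t_INQ Pool.Agent.N91.CN.t_CON
    Pool.Agent.N707.CNVOL.t_VOL Pool.Agent.N91.CN.t_DIS hK
  rw [dL_eq]
  exact ⟨h.1, by rw [← dL_eq]; exact dL_le_dT K, h.2⟩

end Pool.Agent.Results.MP_3d065d_co.ConesTetrahedra
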