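import Pool.Agent.N791.RU.Ball
import Pool.Agent.H349R2.Tet.Final3

/-!
# Upper bounds for packings with reflected copies in space

Every packing by translates of `K` and of `-K` splits into a packing by translates of `K` and the
reflection of a packing by translates of `K`; hence `δ_{T*} ≤ 2 δ_T` and `δ_{L*} ≤ 2 δ_L` for every
convex body, `m_{T*} ≤ 2 m_T`, and, by the bodies near the tetrahedron of
`MP_3d065d_co.TetrahedronNotMinimal`, `m_{L*} ≤ (36/49)(1 - 10^(-17)) < 0.7347`. Every centrally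
symmetric body has `δ_L ≤ δ_{L*}`. Every ellipsoid `E` has `δ_{L*}(E) ≥ 0.7404`, hence no ellipsoid
minimises `δ_{L*}`, and every tetrahedron has `δ_{L*} ≤ 36/49 < 0.7347`.
-/

namespace Pool.Agent.Results.MP_3d065d_co.DoubleLatticeUpperBound

open Pool.Agent.TH219.DL Pool.Agent.N791.RU
open Pool.Agent.H349R2.Tet (Bl near_tetra deltaL_tetra T_compact)

theorem tet_indep : AffineIndependent ℝ
    (![![0, 0, 0], ![1, 0, 0], ![0, 1, 0], ![0, 0, 1]] : Fin 4 → (Fin 3 → ℝ)) := by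
  rw [affineIndependent_iff_of_fintype]
  intro w hw h
  rw [Finset.univ.weightedVSub_eq_linear_combination hw] at h
  have h0 := congrFun h 0
  have h1 := congrFun h 1
  have h2 := congrFun h 2
  simp [Fin.sum_univ_four] at h0 h1 h2
  rw [Fin.sum_univ_four] at hw
  intro i
  fin_cases i
  · show w 0 = 0
    linarith
  · exact h0
  · exact h1
  · exact h2

theorem result :
    (∀ K : Set (Fin 3 → ℝ), Body K → dTs K ≤ 2 * dT K ∧ dLs K ≤ 2 * dL K) ∧
    (mn dTs ≤ 2 * mn dT ∧ mn dLs ≤ 2 * mn dL) ∧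
    (mn dLs ≤ ENNReal.ofReal (36 / 49 * (1 - 1 / 10 ^ 17)) ∧
      ∀ p : Fin 4 → (Fin 3 → ℝ), AffineIndependent ℝ p →
        dLs (convexHull ℝ (Set.range p)) ≤ ENNReal.ofReal (36 / 49)) ∧
    (∀ (K : Set (Fin 3 → ℝ)) (c : Fin 3 → ℝ), Body K → (fun x => c - x) '' K = K →
      dL K ≤ dLs K ∧ (dLs K = mn dLs → dL K ≤ ENNReal.ofReal (36 / 49 * (1 - 1 / 10 ^ 17)))) ∧
    (∀ (L : (Fin 3 → ℝ) ≃ₗ[ℝ] (Fin 3 → ℝ)) (t : Fin 3 → ℝ),
      mn dLs < ENNReal.ofReal 0.7347 ∧
      ENNReal.ofReal 0.7404 ≤ dLs ((fun x => L x + t) '' Bl 1)) := by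
  have htwo : ∀ x : ℝ, 2 * ENNReal.ofReal x = ENNReal.ofReal (2 * x) := fun x => by
    rw [ENNReal.ofReal_mul (by norm_num)]
    norm_num
  have hupp : mn dLs ≤ ENNReal.ofReal (36 / 49 * (1 - 1 / 10 ^ 17)) := by
    obtain ⟨A, h1, h2, h3, -, -, h4⟩ := near_tetra _ tet_indep (1 / 10 ^ 15) (by norm_num) le_rfl
    have hA : Body A := ⟨h1, h2, h3⟩
    calc mn dLs ≤ dLs A := iInf₂_le A hA
      _ ≤ 2 * dL A := dLs_le hA.1
      _ ≤ 2 * ENNReal.ofReal (18 / 49 * (1 - 1 / 10 ^ 15 / 100)) := by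
          rw [dL_eq]
          gcongr
      _ = _ := by
          rw [htwo]
          congr 1
          norm_num
  refine ⟨fun K hK => ⟨dTs_le K, dLs_le hK.1⟩, ⟨mn_dTs_le, mn_dLs_le⟩, ⟨hupp, ?_⟩, ?_, ?_⟩
  · intro p hp
    have hc : IsCompact (convexHull ℝ (Set.range p)) :=
      Set.Finite.isCompact_convexHull ℝ (Set.finite_range _)
    refine (dLs_le hc).trans ?_
    rw [dL_eq, deltaL_tetra p hp]
    have : (18 / 49 : ENNReal) = ENNReal.ofReal (18 / 49) := by
      rw [ENNReal.ofReal_div_of_pos (by norm_num)]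
      norm_num
    rw [this, htwo]
    apply ENNReal.ofReal_le_ofReal
    norm_num
  · intro K c hK hs
    have h := sym_dLs hK c hs
    exact ⟨h, fun e => (h.trans e.le).trans hupp⟩
  · intro L t
    refine ⟨lt_of_le_of_lt hupp ?_, dLs_ell L t⟩
    rw [ENNReal.ofReal_lt_ofReal_iff (by norm_num)]
    norm_num

end Pool.Agent.Results.MP_3d065d_co.DoubleLatticeUpperBound
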