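import Mathlib
import Pool.Agent.N345.Dih.Group
import Pool.Agent.N345.Kn.Diff

set_option autoImplicit false

/-!
# Packings by translates of `K` and `-K` with few relative positions

Let `K` be a convex body in `ℝ^n` (or any set with interior points) and consider a periodic packing
by translates of `K` and of `-K`, with `N` bodies modulo its lattice `Λ` of periods. The relative
position of the body `w + d K` to the body `v + e K` (`e, d = 1` or `-1`) is
`e (w - v) + (e d) K`, the second body seen from the first one. Let `D` be the number of relative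
positions modulo `Λ`. Then `D ≥ N`, with equality for lattice packings `K + Λ` and for double lattice
packings `(K ∪ (v - K)) + Λ`.

We show that if `D < 3 N / 2` then there is a lattice packing by translates of `K` or a double
lattice packing which is at least as dense. In particular the densities of these packings are at
most `max (δ_L(K), δ_(L*)(K))`, and at most `δ_L(K)` if all bodies are translates of `K`.
-/

open MeasureTheory Metric Filter Set

namespace Pool.Agent.Results.MP_3d065d_co.FewRelativePositions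

/-- Euclidean space `ℝ^n`. -/
abbrev E (n : ℕ) : Type := EuclideanSpace ℝ (Fin n)

/-- the copy `v + e K` of `K`, where `e = 1` or `e = -1` -/
def copy {n : ℕ} (K : Set (E n)) (e : ℤˣ) (v : E n) : Set (E n) :=
  (fun x => v + (e : ℤ) • x) '' K

/-- `Λ` is a full lattice and the bodies `v + u + e K` with `(e, v) ∈ S` and `u ∈ Λ` form a packing,
with `|S|` bodies modulo `Λ`: the bodies belonging to different pairs `(s, u)` have disjoint
interiors. -/
structure Packing {n : ℕ} (K : Set (E n)) (Λ : Submodule ℤ (E n)) (S : Finset (ℤˣ × E n)) :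
    Prop where
  disc : DiscreteTopology Λ
  span_top : Submodule.span ℝ (Λ : Set (E n)) = ⊤
  disj : ∀ s ∈ S, ∀ t ∈ S, ∀ u ∈ Λ, (s = t → u ≠ 0) →
    Disjoint (interior (copy K s.1 s.2)) (interior (copy K t.1 (t.2 + u)))

/-- the density of a periodic packing with `N` copies of `K` modulo the lattice `Λ` of periods -/
noncomputable def density {n : ℕ} (K : Set (E n)) (Λ : Submodule ℤ (E n)) (N : ℕ) : ℝ :=
  N * volume.real K / ZLattice.covolume Λ

/-- the number of relative positions modulo `Λ`: the position of the body `t = w + d K` relative to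
the body `s = v + e K` is `(e d, e (w - v))` -/
noncomputable def numRel {n : ℕ} (Λ : Submodule ℤ (E n)) (S : Finset (ℤˣ × E n)) : ℕ :=
  Set.ncard {c : ℤˣ × (E n ⧸ Λ) | ∃ s ∈ S, ∃ t ∈ S,
    c = (s.1 * t.1, Submodule.Quotient.mk ((s.1 : ℤ) • (t.2 - s.2)))}

section Geometry

variable {n : ℕ}

lemma sq_smul {M : Type*} [AddCommGroup M] (e : ℤˣ) (x : M) : (e : ℤ) • (e : ℤ) • x = x := by
  rw [smul_smul, Int.units_coe_mul_self, one_smul]

/-- the map `x ↦ v + e x` -/
def mot (e : ℤˣ) (v : E n) : E n ≃ₜ E n where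
  toFun x := v + (e : ℤ) • x
  invFun x := (e : ℤ) • (x - v)
  left_inv x := by
    show (e : ℤ) • (v + (e : ℤ) • x - v) = x
    rw [add_sub_cancel_left, sq_smul]
  right_inv x := by
    show v + (e : ℤ) • (e : ℤ) • (x - v) = x
    rw [sq_smul, add_sub_cancel]
  continuous_toFun := continuous_const.add (continuous_const_smul _)
  continuous_invFun := (continuous_id.sub continuous_const).const_smul _

lemma interior_copy (K : Set (E n)) (e : ℤˣ) (v : E n) :
    interior (copy K e v) = mot e v '' interior K :=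
  ((mot e v).image_interior K).symm

lemma copy_comp (K : Set (E n)) (e d : ℤˣ) (v w : E n) :
    copy K d w = mot e v '' copy K (e * d) ((e : ℤ) • (w - v)) := by
  unfold copy
  rw [← Set.image_comp]
  refine Set.image_congr fun x _ => ?_
  show w + (d : ℤ) • x = v + (e : ℤ) • ((e : ℤ) • (w - v) + ((e * d : ℤˣ) : ℤ) • x)
  rw [smul_add, sq_smul, Units.val_mul, mul_smul, sq_smul]
  abel

lemma disj_iff (K : Set (E n)) (e d : ℤˣ) (v w : E n) :
    Disjoint (interior (copy K e v)) (interior (copy K d w)) ↔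
      Disjoint (interior K) (interior (copy K (e * d) ((e : ℤ) • (w - v)))) := by
  rw [interior_copy K e v, copy_comp K e d v w, ← (mot e v).image_interior,
    Set.disjoint_image_iff (mot e v).injective]

end Geometry

open Pool.Agent.N345.Dih

/-- packings by translates and reflected copies -/
theorem reflected {n : ℕ} {K : Set (E n)} (hK : (interior K).Nonempty) {Λ : Submodule ℤ (E n)}
    {S : Finset (ℤˣ × E n)} (h : Packing K Λ S) (hD : 2 * numRel Λ S < 3 * S.card) :
    ∃ (Λ' : Submodule ℤ (E n)) (S' : Finset (ℤˣ × E n)), Λ ≤ Λ' ∧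
      (S' = {(1, 0)} ∨ ∃ v, S' = {(1, 0), (-1, v)}) ∧
      ((∀ s ∈ S, ∀ t ∈ S, s.1 = t.1) → S' = {(1, 0)}) ∧
      Packing K Λ' S' ∧ density K Λ S.card ≤ density K Λ' S'.card := by
  classical
  have hS : S.Nonempty := by
    rw [← Finset.card_pos]; omega
  let π : E n →+ E n ⧸ Λ := Λ.mkQ.toAddMonoidHom
  have hπ : ∀ x, π x = 0 ↔ x ∈ Λ := fun x => Submodule.Quotient.mk_eq_zero Λ
  have hπs : Function.Surjective π := Submodule.mkQ_surjective Λ
  let p : ℤˣ × E n → Mot (E n ⧸ Λ) := fun s => ⟨s.1, π s.2⟩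
  have hp : ∀ s, p s = ⟨s.1, π s.2⟩ := fun s => rfl
  have hinj : Set.InjOn p S := by
    intro s hs t ht hst
    by_contra hne
    have e1 : s.1 = t.1 := congrArg Mot.e hst
    have e2 : π s.2 = π t.2 := congrArg Mot.v hst
    have h1 : s.2 - t.2 ∈ Λ := by rw [← hπ, map_sub, e2, sub_self]
    have h2 := h.disj s hs t ht (s.2 - t.2) h1 (fun e => absurd e hne)
    rw [add_sub_cancel, ← e1] at h2
    have h3 : interior (copy K s.1 s.2) = ∅ := by
      rwa [disjoint_self, Set.bot_eq_empty] at h2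
    rw [interior_copy, Set.image_eq_empty] at h3
    exact hK.ne_empty h3
  set T : Finset (Mot (E n ⧸ Λ)) := S.image p with hT
  have hTc : T.card = S.card := Finset.card_image_of_injOn hinj
  have hrel : ∀ s t : ℤˣ × E n, (p s)⁻¹ * p t = ⟨s.1 * t.1, π ((s.1 : ℤ) • (t.2 - s.2))⟩ := by
    intro s t
    ext
    · rfl
    · show -((s.1 : ℤ) • π s.2) + (s.1 : ℤ) • π t.2 = π ((s.1 : ℤ) • (t.2 - s.2))
      rw [map_zsmul, map_sub, smul_sub]
      abel
  have hcard : (quot T).card = numRel Λ S := by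
    have hi : Function.Injective fun g : Mot (E n ⧸ Λ) => (g.e, g.v) := by
      intro a b hab
      exact Mot.ext (congrArg Prod.fst hab) (congrArg Prod.snd hab)
    rw [← Finset.card_image_of_injective (quot T) hi, numRel, ← Set.ncard_coe_finset]
    congr 1
    ext c
    rw [Finset.mem_coe, Finset.mem_image, Set.mem_setOf_eq]
    constructor
    · rintro ⟨g, hg, rfl⟩
      obtain ⟨a, ha, b, hb, rfl⟩ := mem_quot.1 hg
      obtain ⟨s, hs, rfl⟩ := Finset.mem_image.1 ha
      obtain ⟨t, ht, rfl⟩ := Finset.mem_image.1 hb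
      refine ⟨s, hs, t, ht, ?_⟩
      rw [hrel]
      rfl
    · rintro ⟨s, hs, t, ht, rfl⟩
      refine ⟨(p s)⁻¹ * p t, mem_quot.2 ⟨p s, Finset.mem_image_of_mem _ hs, p t,
        Finset.mem_image_of_mem _ ht, rfl⟩, ?_⟩
      rw [hrel]
      rfl
  obtain ⟨H, hH⟩ := exists_subgroup (S := T) (by rw [hcard, hTc]; exact hD) (hS.image p)
  have hHfin : (H : Set (Mot (E n ⧸ Λ))).Finite :=
    (quot T).finite_toSet.subset fun x hx => (hH x).1 hx
  -- the key fact
  have key : ∀ (e : ℤˣ) (u : E n), (⟨e, π u⟩ : Mot (E n ⧸ Λ)) ∈ H → (e = 1 → u ≠ 0) →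
      Disjoint (interior K) (interior (copy K e u)) := by
    intro e u hmem hne
    obtain ⟨a, ha, b, hb, hab⟩ := mem_quot.1 ((hH _).1 hmem)
    obtain ⟨s, hs, rfl⟩ := Finset.mem_image.1 ha
    obtain ⟨t, ht, rfl⟩ := Finset.mem_image.1 hb
    rw [hrel] at hab
    have e1 : s.1 * t.1 = e := congrArg Mot.e hab
    have e2 : π ((s.1 : ℤ) • (t.2 - s.2)) = π u := congrArg Mot.v hab
    have h1 : u - (s.1 : ℤ) • (t.2 - s.2) ∈ Λ := by rw [← hπ, map_sub, e2, sub_self]
    set μ := u - (s.1 : ℤ) • (t.2 - s.2) with hμ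
    have h2 : (s.1 : ℤ) • μ ∈ Λ := Λ.smul_mem _ h1
    have h3 := h.disj s hs t ht _ h2 ?_
    · rw [disj_iff, e1] at h3
      have e3 : (s.1 : ℤ) • (t.2 + (s.1 : ℤ) • μ - s.2) = u := by
        rw [show t.2 + (s.1 : ℤ) • μ - s.2 = (t.2 - s.2) + (s.1 : ℤ) • μ by abel, smul_add,
          sq_smul, hμ]
        abel
      rwa [e3] at h3
    · rintro rfl h0
      have h4 : μ = 0 := by
        have := congrArg (fun y => (s.1 : ℤ) • y) h0
        simpa [sq_smul] using this
      have h5 : e = 1 := by rw [← e1, Int.units_mul_self]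
      refine hne h5 ?_
      have : u = μ + (s.1 : ℤ) • (s.2 - s.2) := by rw [hμ]; abel
      rw [this, h4, sub_self, smul_zero, add_zero]
  -- the translations
  let Hp : AddSubgroup (E n ⧸ Λ) :=
    { carrier := {c | (⟨1, c⟩ : Mot (E n ⧸ Λ)) ∈ H}
      zero_mem' := H.one_mem
      add_mem' := by
        intro a b ha hb
        have h1 := H.mul_mem ha hb
        have e : (⟨1, a⟩ * ⟨1, b⟩ : Mot (E n ⧸ Λ)) = ⟨1, a + b⟩ := by
          ext
          · simp
          · simp
        rwa [e] at h1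
      neg_mem' := by
        intro a ha
        have h1 := H.inv_mem ha
        have e : (⟨1, a⟩ : Mot (E n ⧸ Λ))⁻¹ = ⟨1, -a⟩ := by
          ext
          · simp
          · simp
        rwa [e] at h1 }
  have hHp : ∀ c, c ∈ Hp ↔ (⟨1, c⟩ : Mot (E n ⧸ Λ)) ∈ H := fun c => Iff.rfl
  have hpfin : (Hp : Set (E n ⧸ Λ)).Finite := by
    refine Set.Finite.subset (hHfin.image Mot.v) ?_
    intro c hc
    exact ⟨⟨1, c⟩, (hHp c).1 hc, rfl⟩
  have : Finite Hp := hpfin
  have hppos : 0 < Nat.card Hp := Nat.card_pos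
  let Λ' : Submodule ℤ (E n) := AddSubgroup.toIntSubmodule (Hp.comap π)
  have hmem : ∀ x, x ∈ Λ' ↔ (⟨1, π x⟩ : Mot (E n ⧸ Λ)) ∈ H := fun x => Iff.rfl
  have hle : Λ ≤ Λ' := by
    intro x hx
    rw [hmem, (hπ x).2 hx]
    exact H.one_mem
  obtain ⟨x₀, hx₀⟩ := hK
  obtain ⟨ρ, hρ, hball⟩ := Metric.isOpen_iff.1 isOpen_interior x₀ hx₀
  have hsep : ∀ γ ∈ Λ', γ ≠ 0 → ρ ≤ ‖γ‖ := by
    intro γ hγ hγ0
    by_contra hlt
    push Not at hlt
    have h1 := key 1 γ ((hmem γ).1 hγ) (fun _ => hγ0)
    rw [Set.disjoint_left] at h1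
    have h2 : γ + x₀ ∈ interior K := by
      refine hball ?_
      rw [mem_ball, dist_eq_norm, add_sub_cancel_right]
      exact hlt
    refine h1 h2 ?_
    rw [interior_copy]
    refine ⟨x₀, hx₀, ?_⟩
    show γ + ((1 : ℤˣ) : ℤ) • x₀ = γ + x₀
    rw [Units.val_one, one_smul]
  have hdisc : DiscreteTopology Λ' := by
    refine DiscreteTopology.of_forall_le_dist hρ ?_
    intro x y hxy
    have h1 := hsep (x - y) (Λ'.sub_mem x.2 y.2) (by
      rw [sub_ne_zero]; exact fun e => hxy (Subtype.ext e))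
    rw [Subtype.dist_eq, dist_eq_norm]
    exact h1
  have hspan : Submodule.span ℝ (Λ' : Set (E n)) = ⊤ := by
    rw [eq_top_iff, ← h.span_top]
    exact Submodule.span_mono hle
  -- packings from representatives of the signs
  have main : ∀ S' : Finset (ℤˣ × E n), (∀ s ∈ S', p s ∈ H) →
      (∀ s ∈ S', ∀ t ∈ S', s.1 = t.1 → s = t) → (∀ g ∈ H, ∃ s ∈ S', s.1 = g.e) →
      Packing K Λ' S' ∧ density K Λ S.card ≤ density K Λ' S'.card := by
    intro S' h1 h2 h3
    refine ⟨⟨hdisc, hspan, fun s hs t ht u hu hne => ?_⟩, ?_⟩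
    · rw [disj_iff]
      refine key _ _ ?_ ?_
      · have e : (⟨s.1 * t.1, π ((s.1 : ℤ) • (t.2 + u - s.2))⟩ : Mot (E n ⧸ Λ))
            = (p s)⁻¹ * (⟨1, π u⟩ * p t) := by
          refine Mot.ext ?_ ?_
          · show s.1 * t.1 = s.1 * (1 * t.1)
            rw [one_mul]
          · show π ((s.1 : ℤ) • (t.2 + u - s.2))
              = -((s.1 : ℤ) • π s.2) + (s.1 : ℤ) • (π u + ((1 : ℤˣ) : ℤ) • π t.2)
            rw [map_zsmul, map_sub, map_add, smul_sub, Units.val_one, one_smul,
              add_comm (π u)]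
            abel
        rw [e]
        exact H.mul_mem (H.inv_mem (h1 s hs)) (H.mul_mem ((hmem u).1 hu) (h1 t ht))
      · intro he h0
        have e1 : s.1 = t.1 := by
          have := congrArg (fun y => s.1 * y) he
          simpa [← mul_assoc, Int.units_mul_self] using this.symm
        have e2 := h2 s hs t ht e1
        subst e2
        refine hne rfl ?_
        have := congrArg (fun y => (s.1 : ℤ) • y) h0
        simpa [sq_smul] using this
    · -- the density
      have hN : S.card ≤ S'.card * Nat.card Hp := by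
        obtain ⟨s₀, hs₀⟩ := hS
        choose! σ hσ1 hσ2 using h3
        have hmH : ∀ s ∈ S, (p s₀)⁻¹ * p s ∈ H := fun s hs => (hH _).2
          (mem_quot.2 ⟨p s₀, Finset.mem_image_of_mem _ hs₀, p s, Finset.mem_image_of_mem _ hs, rfl⟩)
        have h4 : S.card ≤ (S' ×ˢ hpfin.toFinset).card := by
          refine Finset.card_le_card_of_injOn (fun s => (σ ((p s₀)⁻¹ * p s),
            ((p s₀)⁻¹ * p s * (p (σ ((p s₀)⁻¹ * p s)))⁻¹).v)) ?_ ?_
          · intro s hs
            have h5 := hmH s hs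
            refine Finset.mem_coe.2 (Finset.mem_product.2 ⟨hσ1 _ h5, ?_⟩)
            refine hpfin.mem_toFinset.2 ?_
            show (⟨1, _⟩ : Mot (E n ⧸ Λ)) ∈ H
            have h6 : (p s₀)⁻¹ * p s * (p (σ ((p s₀)⁻¹ * p s)))⁻¹ ∈ H :=
              H.mul_mem h5 (H.inv_mem (h1 _ (hσ1 _ h5)))
            have h7 : ((p s₀)⁻¹ * p s * (p (σ ((p s₀)⁻¹ * p s)))⁻¹).e = 1 := by
              show ((p s₀)⁻¹ * p s).e * (σ ((p s₀)⁻¹ * p s)).1 = 1
              rw [hσ2 _ h5, Int.units_mul_self]
            have h8 : (⟨1, ((p s₀)⁻¹ * p s * (p (σ ((p s₀)⁻¹ * p s)))⁻¹).v⟩ : Mot (E n ⧸ Λ))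
                = (p s₀)⁻¹ * p s * (p (σ ((p s₀)⁻¹ * p s)))⁻¹ := Mot.ext h7.symm rfl
            rw [h8]
            exact h6
          · intro s hs t ht hst
            have e1 : σ ((p s₀)⁻¹ * p s) = σ ((p s₀)⁻¹ * p t) := congrArg Prod.fst hst
            have e2 : ((p s₀)⁻¹ * p s * (p (σ ((p s₀)⁻¹ * p s)))⁻¹).v
                = ((p s₀)⁻¹ * p t * (p (σ ((p s₀)⁻¹ * p t)))⁻¹).v := congrArg Prod.snd hst
            have e3 : ((p s₀)⁻¹ * p s * (p (σ ((p s₀)⁻¹ * p s)))⁻¹).e
                = ((p s₀)⁻¹ * p t * (p (σ ((p s₀)⁻¹ * p t)))⁻¹).e := by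
              show ((p s₀)⁻¹ * p s).e * (σ ((p s₀)⁻¹ * p s)).1
                = ((p s₀)⁻¹ * p t).e * (σ ((p s₀)⁻¹ * p t)).1
              rw [hσ2 _ (hmH s hs), hσ2 _ (hmH t ht), Int.units_mul_self, Int.units_mul_self]
            have e4 := Mot.ext e3 e2
            rw [e1] at e4
            have e5 : p s = p t := mul_left_cancel (mul_right_cancel e4)
            exact hinj hs ht e5
        rw [Finset.card_product] at h4
        have h5 : hpfin.toFinset.card = Nat.card Hp := by
          rw [← Set.ncard_eq_toFinset_card _ hpfin]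
          exact (Nat.card_coe_set_eq _).symm
        rwa [h5] at h4
      have := h.disc
      have : IsZLattice ℝ Λ := ⟨h.span_top⟩
      have := hdisc
      have : IsZLattice ℝ Λ' := ⟨hspan⟩
      have hcov := ZLattice.covolume_div_covolume_eq_relIndex' Λ Λ' hle
      have hker : π.ker = Λ.toAddSubgroup := by
        ext x
        exact hπ x
      have hind : Λ.toAddSubgroup.relIndex Λ'.toAddSubgroup = Nat.card Hp := by
        rw [← hker, AddSubgroup.relIndex_ker]
        have e : AddSubgroup.map π Λ'.toAddSubgroup = Hp := by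
          have : Λ'.toAddSubgroup = Hp.comap π := rfl
          rw [this, AddSubgroup.map_comap_eq_self_of_surjective hπs]
        rw [e]
      rw [hind] at hcov
      have hc1 : 0 < ZLattice.covolume Λ := ZLattice.covolume_pos Λ volume
      have hc2 : 0 < ZLattice.covolume Λ' := ZLattice.covolume_pos Λ' volume
      have hcov' : ZLattice.covolume Λ = Nat.card Hp * ZLattice.covolume Λ' := by
        rw [← hcov]; field_simp
      have hω : 0 ≤ volume.real K := measureReal_nonneg
      have hHpos' : (0 : ℝ) < Nat.card Hp := by exact_mod_cast hppos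
      unfold density
      rw [hcov', div_le_div_iff₀ (by positivity) hc2]
      have hN' : (S.card : ℝ) ≤ S'.card * Nat.card Hp := by exact_mod_cast hN
      calc (S.card : ℝ) * volume.real K * ZLattice.covolume Λ'
          ≤ (S'.card * Nat.card Hp) * volume.real K * ZLattice.covolume Λ' := by gcongr
        _ = S'.card * volume.real K * (Nat.card Hp * ZLattice.covolume Λ') := by ring
  have hp1 : p (1, 0) = 1 := by
    rw [hp, map_zero]; rfl
  by_cases hone : ∀ g ∈ H, g.e = 1
  · obtain ⟨h1, h2⟩ := main {(1, 0)} (by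
        intro s hs
        rw [Finset.mem_singleton.1 hs, hp1]
        exact H.one_mem) (by
        intro s hs t ht _
        rw [Finset.mem_singleton.1 hs, Finset.mem_singleton.1 ht]) (by
        intro g hg
        exact ⟨(1, 0), Finset.mem_singleton_self _, (hone g hg).symm⟩)
    exact ⟨Λ', {(1, 0)}, hle, Or.inl rfl, fun _ => rfl, h1, h2⟩
  · push Not at hone
    obtain ⟨g, hg, hge⟩ := hone
    have hge' : g.e = -1 := (Int.units_eq_one_or g.e).resolve_left hge
    obtain ⟨v, hv⟩ := hπs g.v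
    have hpv : p (-1, v) = g := Mot.ext hge'.symm hv
    obtain ⟨h1, h2⟩ := main {(1, 0), (-1, v)} (by
        intro s hs
        rcases Finset.mem_insert.1 hs with rfl | hs
        · rw [hp1]; exact H.one_mem
        · rw [Finset.mem_singleton.1 hs, hpv]; exact hg) (by
        intro s hs t ht hst
        rcases Finset.mem_insert.1 hs with rfl | hs
        · rcases Finset.mem_insert.1 ht with rfl | ht
          · rfl
          · rw [Finset.mem_singleton.1 ht] at hst
            have h5 : (1 : ℤˣ) = -1 := hst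
            exact absurd h5 (by decide)
        · rw [Finset.mem_singleton.1 hs] at hst ⊢
          rcases Finset.mem_insert.1 ht with rfl | ht
          · have h5 : (-1 : ℤˣ) = 1 := hst
            exact absurd h5 (by decide)
          · rw [Finset.mem_singleton.1 ht]) (by
        intro g' _
        rcases Int.units_eq_one_or g'.e with h5 | h5
        · exact ⟨(1, 0), Finset.mem_insert_self _ _, h5.symm⟩
        · exact ⟨(-1, v), Finset.mem_insert_of_mem (Finset.mem_singleton_self _), h5.symm⟩)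
    refine ⟨Λ', {(1, 0), (-1, v)}, hle, Or.inr ⟨v, rfl⟩, fun hsame => ?_, h1, h2⟩
    exfalso
    obtain ⟨a, ha, b, hb, hab⟩ := mem_quot.1 ((hH _).1 hg)
    obtain ⟨s, hs, rfl⟩ := Finset.mem_image.1 ha
    obtain ⟨t, ht, rfl⟩ := Finset.mem_image.1 hb
    have e1 : s.1 * t.1 = g.e := congrArg Mot.e hab
    rw [hsame s hs t ht, Int.units_mul_self] at e1
    exact hge e1.symm

/-- the number of classes modulo `Λ` of the differences of elements of `F + Λ` -/
noncomputable def numDiff {n : ℕ} (Λ : Submodule ℤ (E n)) (F : Finset (E n)) : ℕ :=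
  Set.ncard {c : E n ⧸ Λ | ∃ x ∈ F, ∃ y ∈ F, c = Submodule.Quotient.mk (x - y)}

/-- the positions of the translates `v + K`, `v ∈ F` -/
noncomputable def positions {n : ℕ} (F : Finset (E n)) : Finset (ℤˣ × E n) :=
  F.map ⟨fun v => (1, v), fun _ _ h => congrArg Prod.snd h⟩

lemma mem_positions {n : ℕ} {F : Finset (E n)} {v : E n} (hv : v ∈ F) :
    ((1 : ℤˣ), v) ∈ positions F := by
  unfold positions
  rw [Finset.mem_map]
  exact ⟨v, hv, rfl⟩

open scoped Pointwise in
/-- packings by translates -/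
theorem translates {n : ℕ} {K : Set (E n)} (hK : (interior K).Nonempty) {Λ : Submodule ℤ (E n)}
    {F : Finset (E n)} (h : Packing K Λ (positions F)) (hF : F.Nonempty) :
    ∃ (Λ' : Submodule ℤ (E n)) (R : Finset (E n)), Λ ≤ Λ' ∧ Packing K Λ' {(1, 0)} ∧
      (∀ γ ∈ Λ', ∃ x ∈ F, ∃ y ∈ F, γ - (x - y) ∈ Λ) ∧
      R ⊆ F ∧ (∀ x ∈ F, ∃ y ∈ R, x - y ∈ Λ') ∧
      2 * R.card * F.card ≤ F.card + R.card * numDiff Λ F ∧
      density K Λ F.card ≤ R.card * density K Λ' 1 := by
  classical
  have hdj : ∀ x ∈ F, ∀ y ∈ F, ∀ u ∈ Λ, (x = y → u ≠ 0) →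
      Disjoint (interior K) (interior (copy K 1 (y + u - x))) := by
    intro x hx y hy u hu hne
    have h1 := h.disj _ (mem_positions hx) _ (mem_positions hy) u hu
      (fun e => hne (congrArg Prod.snd e))
    rw [disj_iff] at h1
    simpa using h1
  have hne : ∀ γ, Disjoint (interior K) (interior (copy K 1 γ)) → γ ≠ 0 := by
    rintro γ h1 rfl
    have e : copy K 1 0 = K := by
      unfold copy
      simp
    rw [e, disjoint_self, Set.bot_eq_empty] at h1
    exact hK.ne_empty h1
  let π : E n →+ E n ⧸ Λ := Λ.mkQ.toAddMonoidHom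
  have hπ : ∀ x, π x = 0 ↔ x ∈ Λ := fun x => Submodule.Quotient.mk_eq_zero Λ
  have hπs : Function.Surjective π := Submodule.mkQ_surjective Λ
  have hinj : Set.InjOn π F := by
    intro x hx y hy hxy
    by_contra hxy'
    have h1 : x - y ∈ Λ := by rw [← hπ, map_sub, hxy, sub_self]
    have h2 := hne _ (hdj x hx y hy (x - y) h1 (fun e => absurd e hxy'))
    exact h2 (by abel)
  set A : Finset (E n ⧸ Λ) := F.image π with hA
  have hAc : A.card = F.card := Finset.card_image_of_injOn hinj
  have hD : (A - A).card = numDiff Λ F := by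
    unfold numDiff
    rw [← Set.ncard_coe_finset]
    congr 1
    ext c
    rw [Finset.mem_coe, Finset.mem_sub, Set.mem_setOf_eq]
    constructor
    · rintro ⟨u, hu, v, hv, rfl⟩
      obtain ⟨x, hx, rfl⟩ := Finset.mem_image.1 hu
      obtain ⟨y, hy, rfl⟩ := Finset.mem_image.1 hv
      exact ⟨x, hx, y, hy, rfl⟩
    · rintro ⟨x, hx, y, hy, rfl⟩
      exact ⟨π x, Finset.mem_image_of_mem _ hx, π y, Finset.mem_image_of_mem _ hy, rfl⟩
  obtain ⟨H, hH1, hH2⟩ := Pool.Agent.N345.Kn.diff_kneser (A := A) (hF.image π)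
  have hfin : (H : Set (E n ⧸ Λ)).Finite := (A - A).finite_toSet.subset fun x hx => hH1 x hx
  have : Finite H := hfin
  have hHpos : 0 < Nat.card H := Nat.card_pos
  let L : AddSubgroup (E n) := H.comap π
  let Λ' : Submodule ℤ (E n) := AddSubgroup.toIntSubmodule L
  have hmem : ∀ x, x ∈ Λ' ↔ π x ∈ H := fun x => Iff.rfl
  have hle : Λ ≤ Λ' := by
    intro x hx
    rw [hmem, (hπ x).2 hx]
    exact H.zero_mem
  have hdiff : ∀ γ ∈ Λ', ∃ x ∈ F, ∃ y ∈ F, γ - (x - y) ∈ Λ := by
    intro γ hγ
    obtain ⟨u, hu, v, hv, huv⟩ := Finset.mem_sub.1 (hH1 _ ((hmem γ).1 hγ))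
    obtain ⟨x, hx, rfl⟩ := Finset.mem_image.1 hu
    obtain ⟨y, hy, rfl⟩ := Finset.mem_image.1 hv
    refine ⟨x, hx, y, hy, ?_⟩
    rw [← hπ, map_sub, map_sub, huv, sub_self]
  have hdisj : ∀ γ ∈ Λ', γ ≠ 0 → Disjoint (interior K) (interior (copy K 1 γ)) := by
    intro γ hγ hγ0
    obtain ⟨x, hx, y, hy, hxy⟩ := hdiff γ hγ
    have h1 := hdj y hy x hx (γ - (x - y)) hxy ?_
    · have e : x + (γ - (x - y)) - y = γ := by abel
      rwa [e] at h1
    · rintro rfl
      rw [sub_self, sub_zero]
      exact hγ0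
  obtain ⟨x₀, hx₀⟩ := hK
  obtain ⟨ρ, hρ, hball⟩ := Metric.isOpen_iff.1 isOpen_interior x₀ hx₀
  have hsep : ∀ γ ∈ Λ', γ ≠ 0 → ρ ≤ ‖γ‖ := by
    intro γ hγ hγ0
    by_contra hlt
    push Not at hlt
    have h1 := hdisj γ hγ hγ0
    rw [Set.disjoint_left] at h1
    have h2 : γ + x₀ ∈ interior K := by
      refine hball ?_
      rw [mem_ball, dist_eq_norm, add_sub_cancel_right]
      exact hlt
    refine h1 h2 ?_
    rw [interior_copy]
    refine ⟨x₀, hx₀, ?_⟩
    show γ + ((1 : ℤˣ) : ℤ) • x₀ = γ + x₀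
    rw [Units.val_one, one_smul]
  have hdisc : DiscreteTopology Λ' := by
    refine DiscreteTopology.of_forall_le_dist hρ ?_
    intro x y hxy
    have h1 := hsep (x - y) (Λ'.sub_mem x.2 y.2) (by
      rw [sub_ne_zero]; exact fun e => hxy (Subtype.ext e))
    rw [Subtype.dist_eq, dist_eq_norm]
    exact h1
  have hspan : Submodule.span ℝ (Λ' : Set (E n)) = ⊤ := by
    rw [eq_top_iff, ← h.span_top]
    exact Submodule.span_mono hle
  have hpack : Packing K Λ' {(1, 0)} := by
    refine ⟨hdisc, hspan, fun s hs t ht u hu hne' => ?_⟩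
    rw [Finset.mem_singleton] at hs ht
    subst hs
    subst ht
    rw [disj_iff]
    have := hdisj u hu (hne' rfl)
    simpa using this
  obtain ⟨R, hRF, hR1, hR2⟩ := Pool.Agent.N345.Kn.exists_reps L F
  have hRim : (R.image π).card = R.card :=
    Finset.card_image_of_injOn (hinj.mono fun x hx => hRF hx)
  have hK' := hH2 (R.image π) (Finset.image_subset_image hRF) ?_
  swap
  · intro u hu v hv huv
    obtain ⟨x, hx, rfl⟩ := Finset.mem_image.1 hu
    obtain ⟨y, hy, rfl⟩ := Finset.mem_image.1 hv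
    rw [← map_sub] at huv
    rw [hR2 x hx y hy huv]
  rw [hRim, hD] at hK'
  have hN : F.card ≤ R.card * Nat.card H := by
    choose! ρ' hρ1 hρ2 using hR1
    have h1 : F.card ≤ (R ×ˢ hfin.toFinset).card := by
      refine Finset.card_le_card_of_injOn (fun x => (ρ' x, π (x - ρ' x))) ?_ ?_
      · intro x hx
        refine Finset.mem_coe.2 (Finset.mem_product.2 ⟨hρ1 x hx, ?_⟩)
        exact hfin.mem_toFinset.2 (hρ2 x hx)
      · intro x hx y hy hxy
        have e1 : ρ' x = ρ' y := congrArg Prod.fst hxy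
        have e2 : π (x - ρ' x) = π (y - ρ' y) := congrArg Prod.snd hxy
        rw [map_sub, map_sub, e1, sub_left_inj] at e2
        exact hinj hx hy e2
    rw [Finset.card_product] at h1
    have h2 : hfin.toFinset.card = Nat.card H := by
      rw [← Set.ncard_eq_toFinset_card _ hfin]
      exact (Nat.card_coe_set_eq _).symm
    rwa [h2] at h1
  have hineq : 2 * R.card * F.card ≤ F.card + R.card * numDiff Λ F := by
    obtain ⟨N, hNe⟩ : ∃ N, N = F.card := ⟨_, rfl⟩
    obtain ⟨m, hme⟩ : ∃ m, m = R.card := ⟨_, rfl⟩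
    obtain ⟨c, hce⟩ : ∃ c, c = Nat.card H := ⟨_, rfl⟩
    obtain ⟨D, hDe⟩ : ∃ D, D = numDiff Λ F := ⟨_, rfl⟩
    rw [← hNe, ← hme, ← hDe]
    rw [← hNe, ← hme, ← hce] at hN
    rw [← hme, ← hce, ← hDe] at hK'
    rcases Nat.eq_zero_or_pos m with h0 | h0
    · rw [h0]; simp
    · obtain ⟨m', rfl⟩ : ∃ m', m = m' + 1 := ⟨m - 1, by omega⟩
      have h1 : (2 * m' + 1) * c ≤ D := by nlinarith
      have h2 : (2 * m' + 1) * N ≤ (m' + 1) * D := by
        calc (2 * m' + 1) * N ≤ (2 * m' + 1) * ((m' + 1) * c) := Nat.mul_le_mul_left _ hN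
          _ = (m' + 1) * ((2 * m' + 1) * c) := by ring
          _ ≤ (m' + 1) * D := Nat.mul_le_mul_left _ h1
      nlinarith
  refine ⟨Λ', R, hle, hpack, hdiff, hRF, hR1, hineq, ?_⟩
  have := h.disc
  have : IsZLattice ℝ Λ := ⟨h.span_top⟩
  have := hdisc
  have : IsZLattice ℝ Λ' := ⟨hspan⟩
  have hcov := ZLattice.covolume_div_covolume_eq_relIndex' Λ Λ' hle
  have hker : π.ker = Λ.toAddSubgroup := by
    ext x
    exact hπ x
  have hind : Λ.toAddSubgroup.relIndex Λ'.toAddSubgroup = Nat.card H := by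
    rw [← hker, AddSubgroup.relIndex_ker]
    have e : AddSubgroup.map π Λ'.toAddSubgroup = H := by
      have : Λ'.toAddSubgroup = H.comap π := rfl
      rw [this, AddSubgroup.map_comap_eq_self_of_surjective hπs]
    rw [e]
  rw [hind] at hcov
  have hc1 : 0 < ZLattice.covolume Λ := ZLattice.covolume_pos Λ volume
  have hc2 : 0 < ZLattice.covolume Λ' := ZLattice.covolume_pos Λ' volume
  have hcov' : ZLattice.covolume Λ = Nat.card H * ZLattice.covolume Λ' := by
    rw [← hcov]; field_simp
  have hω : 0 ≤ volume.real K := measureReal_nonneg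
  have hHpos' : (0 : ℝ) < Nat.card H := by exact_mod_cast hHpos
  unfold density
  rw [hcov', Nat.cast_one, one_mul, ← mul_div_assoc, div_le_div_iff₀ (by positivity) hc2]
  have hN' : (F.card : ℝ) ≤ R.card * Nat.card H := by exact_mod_cast hN
  calc (F.card : ℝ) * volume.real K * ZLattice.covolume Λ'
      ≤ (R.card * Nat.card H) * volume.real K * ZLattice.covolume Λ' := by gcongr
    _ = R.card * volume.real K * (Nat.card H * ZLattice.covolume Λ') := by ring

/-- **Packings with few relative positions.**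

1. Let `K` be a set with interior points and let the translates and reflected copies of `K` at the
positions `S + Λ` be a packing, with fewer than `3 |S| / 2` relative positions modulo `Λ`. Then there
is a lattice packing `K + Λ'` or a double lattice packing `(K ∪ (v - K)) + Λ'`, with `Λ ≤ Λ'`, which
is at least as dense (a lattice packing if all bodies are translates of each other).

2. Let the translates of `K` by the elements of `F + Λ` be a packing, `N = |F|`, and let `D` be the
number of classes of differences modulo `Λ`. Then `F + Λ` is contained in `m` translates of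
a lattice `Λ'` with `m (2 N - D) ≤ N` for which `K + Λ'` is a packing, and the density is at most
`m` times the density of this lattice packing. -/
theorem result {n : ℕ} {K : Set (E n)} (hK : (interior K).Nonempty) (Λ : Submodule ℤ (E n)) :
    (∀ S : Finset (ℤˣ × E n), Packing K Λ S → 2 * numRel Λ S < 3 * S.card →
      ∃ (Λ' : Submodule ℤ (E n)) (S' : Finset (ℤˣ × E n)), Λ ≤ Λ' ∧
        (S' = {(1, 0)} ∨ ∃ v, S' = {(1, 0), (-1, v)}) ∧
        ((∀ s ∈ S, ∀ t ∈ S, s.1 = t.1) → S' = {(1, 0)}) ∧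
        Packing K Λ' S' ∧ density K Λ S.card ≤ density K Λ' S'.card) ∧
    (∀ F : Finset (E n), F.Nonempty → Packing K Λ (positions F) →
      ∃ (Λ' : Submodule ℤ (E n)) (R : Finset (E n)), Λ ≤ Λ' ∧ Packing K Λ' {(1, 0)} ∧
        (∀ γ ∈ Λ', ∃ x ∈ F, ∃ y ∈ F, γ - (x - y) ∈ Λ) ∧
        R ⊆ F ∧ (∀ x ∈ F, ∃ y ∈ R, x - y ∈ Λ') ∧
        2 * R.card * F.card ≤ F.card + R.card * numDiff Λ F ∧
        density K Λ F.card ≤ R.card * density K Λ' 1) :=
  ⟨fun _ h hD => reflected hK h hD, fun _ hF h => translates hK h hF⟩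

end Pool.Agent.Results.MP_3d065d_co.FewRelativePositions
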